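import Pool.Agent.Zk52.LMO.Coef

/-!
# The LMO invariant separates the homology spheres obtained by surgery on the Borromean rings

The integral homology spheres obtained by Dehn surgery on the Borromean rings are the manifolds
`M(a, b, c)`, `a, b, c ∈ ℤ`, with the surgery coefficients `-1 / a`, `-1 / b`, `-1 / c`. Equivalently,
these are all integral homology spheres obtained by Dehn surgery on the double twist knots: the
two-bridge knots of genus one, with the trefoil, the figure eight knot and all twist knots among them.
If `a b c = 0` then `M(a, b, c)` is the 3-sphere. All but few of the others are hyperbolic. By Habiro's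
formula the Ohtsuki series of `M(a, b, c)`, which is determined by the LMO invariant (Ohtsuki), is the
series `ohtsuki a b c` of `Pool.Agent.Zk52.LMO.Defs` in `h = q - 1`; it depends only on the set with
multiplicities `{a, b, c}`, as the manifold does (the components of the Borromean rings can be permuted,
up to orientations).

We show that the LMO invariant separates all these manifolds, and its part of degree at most three is
sufficient: if the coefficients of `h ^ k`, `k ≤ 3`, agree for `M(a, b, c)` and `M(a', b', c')`, then
both are the 3-sphere or `{a, b, c} = {a', b', c'}`. The coefficient of `h`, six times the Casson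
invariant, detects the 3-sphere among them. The part of degree at most two does not separate them.

Proof: the first coefficients of the series are, with the elementary symmetric functions
`e₁ = a + b + c`, `e₂ = a b + b c + c a`, `e₃ = a b c`,
`- 6 e₃`, `60 e₃ ^ 2 - 6 e₁ e₃ + 3 e₃` and
`- 840 e₃ ^ 3 + 160 e₁ e₃ ^ 2 - 4 e₁ ^ 2 e₃ - 60 e₃ ^ 2 - 8 e₂ e₃ + 6 e₁ e₃ - 2 e₃`.
-/

set_option autoImplicit false

namespace Pool.Agent.Results.MP_27a3bb_gt.BorromeanSurgeries

open PowerSeries Pool.Agent.Zk52.LMO

/-- three integers are determined by their elementary symmetric functions -/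
theorem triple_eq {a b c a' b' c' : ℤ} (h1 : a + b + c = a' + b' + c')
    (h2 : a * b + b * c + c * a = a' * b' + b' * c' + c' * a') (h3 : a * b * c = a' * b' * c') :
    ({a, b, c} : Multiset ℤ) = {a', b', c'} := by
  -- two integers are determined by their sum and product
  have pair : ∀ {x y x' y' : ℤ}, x + y = x' + y' → x * y = x' * y' →
      (x = x' ∧ y = y') ∨ (x = y' ∧ y = x') := by
    intro x y x' y' hs hp
    have h : (x - x') * (x - y') = 0 := by
      have : y = x' + y' - x := by linarith
      rw [this] at hp
      linarith
    rcases mul_eq_zero.1 h with h | h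
    · exact Or.inl ⟨by linarith, by linarith⟩
    · exact Or.inr ⟨by linarith, by linarith⟩
  have h : (a - a') * ((a - b') * (a - c')) = 0 := by
    have e : (a - a') * ((a - b') * (a - c')) = (a - a) * ((a - b) * (a - c)) := by
      linear_combination (-a ^ 2) * h1 * (-1) + a * h2 * (-1) - h3 * (-1)
    rw [e, sub_self, zero_mul]
  rcases mul_eq_zero.1 h with h | h
  · have ha : a = a' := by linarith
    subst ha
    rcases pair (x := b) (y := c) (x' := b') (y' := c') (by linarith) (by
      by_cases h0 : a = 0
      · subst h0; linarith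
      · have hs : b + c = b' + c' := by linarith
        have : a * (b * c - b' * c') = 0 := by linarith
        rcases mul_eq_zero.1 this with h | h
        · exact absurd h h0
        · linarith) with ⟨rfl, rfl⟩ | ⟨rfl, rfl⟩
    · rfl
    · rw [Multiset.insert_eq_cons, Multiset.insert_eq_cons, Multiset.insert_eq_cons,
        Multiset.insert_eq_cons]
      congr 1
      exact Multiset.cons_swap _ _ _
  rcases mul_eq_zero.1 h with h | h
  · have ha : a = b' := by linarith
    subst ha
    have e1 : b + c = a' + c' := by linarith
    have e2 : b * c = a' * c' := by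
      have : b * c + a * (b + c) = a' * c' + a * (a' + c') := by linarith
      rw [e1] at this
      linarith
    rcases pair e1 e2 with ⟨rfl, rfl⟩ | ⟨rfl, rfl⟩
    · exact Multiset.cons_swap _ _ _
    · show (a ::ₘ b ::ₘ {c} : Multiset ℤ) = c ::ₘ a ::ₘ {b}
      rw [Multiset.cons_swap c a]
      congr 1
      exact Multiset.cons_swap _ _ _
  · have ha : a = c' := by linarith
    subst ha
    have e1 : b + c = a' + b' := by linarith
    have e2 : b * c = a' * b' := by
      have : b * c + a * (b + c) = a' * b' + a * (a' + b') := by linarith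
      rw [e1] at this
      linarith
    rcases pair e1 e2 with ⟨rfl, rfl⟩ | ⟨rfl, rfl⟩
    · show (a ::ₘ b ::ₘ {c} : Multiset ℤ) = b ::ₘ c ::ₘ {a}
      rw [Multiset.cons_swap a b]
      congr 1
      exact Multiset.cons_swap _ _ _
    · show (a ::ₘ b ::ₘ {c} : Multiset ℤ) = c ::ₘ b ::ₘ {a}
      rw [Multiset.cons_swap a b, Multiset.cons_swap c b]
      congr 1
      exact Multiset.cons_swap _ _ _

theorem result :
    -- the terms of the formula are divisible by `h ^ n`, so the series is their sum
    (∀ (a b c : ℤ) (n : ℕ), (X : PowerSeries ℤ) ^ n ∣ term a b c n) ∧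
    -- the coefficients up to degree three separate the manifolds
    (∀ a b c a' b' c' : ℤ,
      (∀ k : ℕ, k ≤ 3 → coeff k (ohtsuki a b c) = coeff k (ohtsuki a' b' c')) →
      (a * b * c = 0 ∧ a' * b' * c' = 0) ∨ ({a, b, c} : Multiset ℤ) = {a', b', c'}) ∧
    -- the coefficient of degree one detects the 3-sphere
    (∀ a b c : ℤ, coeff 1 (ohtsuki a b c) = 0 → a = 0 ∨ b = 0 ∨ c = 0) ∧
    -- the coefficients up to degree two do not separate the manifolds
    (∀ t : ℤ, t ≠ 0 →
      (∀ k : ℕ, k ≤ 2 → coeff k (ohtsuki t (6 * t) (6 * t)) =
        coeff k (ohtsuki (2 * t) (2 * t) (9 * t))) ∧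
      ohtsuki t (6 * t) (6 * t) ≠ ohtsuki (2 * t) (2 * t) (9 * t)) := by
  refine ⟨X_pow_dvd_term, ?_, ?_, ?_⟩
  · intro a b c a' b' c' h
    obtain ⟨-, x1, x2, x3⟩ := R_ohtsuki a b c
    obtain ⟨-, y1, y2, y3⟩ := R_ohtsuki a' b' c'
    have k1 := h 1 (by norm_num)
    have k2 := h 2 (by norm_num)
    have k3 := h 3 (by norm_num)
    rw [x1, y1] at k1
    rw [x2, y2] at k2
    rw [x3, y3] at k3
    have e3 : a * b * c = a' * b' * c' := by linarith
    by_cases h0 : a * b * c = 0
    · exact Or.inl ⟨h0, by rw [← e3]; exact h0⟩
    right
    rw [← e3] at k2 k3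
    obtain ⟨e, he⟩ : ∃ e : ℤ, e = a * b * c := ⟨_, rfl⟩
    rw [← he] at k2 k3 h0
    have e1 : a + b + c = a' + b' + c' := by
      have : e * ((a + b + c) - (a' + b' + c')) = 0 := by linarith
      rcases mul_eq_zero.1 this with h | h
      · exact absurd h h0
      · linarith
    rw [← e1] at k3
    have e2 : a * b + b * c + c * a = a' * b' + b' * c' + c' * a' := by
      have : e * ((a * b + b * c + c * a) - (a' * b' + b' * c' + c' * a')) = 0 := by linarith
      rcases mul_eq_zero.1 this with h | h
      · exact absurd h h0
      · linarith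
    exact triple_eq e1 e2 e3
  · intro a b c h
    obtain ⟨-, x1, -, -⟩ := R_ohtsuki a b c
    rw [x1] at h
    have : a * b * c = 0 := by linarith
    rcases mul_eq_zero.1 this with h | h
    · rcases mul_eq_zero.1 h with h | h
      · exact Or.inl h
      · exact Or.inr (Or.inl h)
    · exact Or.inr (Or.inr h)
  · intro t ht
    obtain ⟨x0, x1, x2, x3⟩ := R_ohtsuki t (6 * t) (6 * t)
    obtain ⟨y0, y1, y2, y3⟩ := R_ohtsuki (2 * t) (2 * t) (9 * t)
    constructor
    · intro k hk
      interval_cases k
      · rw [x0, y0]
      · rw [x1, y1]; ring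
      · rw [x2, y2]; ring
    · intro hcon
      have h3 := congrArg (coeff 3) hcon
      rw [x3, y3] at h3
      have : t ^ 5 = 0 := by nlinarith
      exact ht (pow_eq_zero_iff (by norm_num) |>.1 this)

end Pool.Agent.Results.MP_27a3bb_gt.BorromeanSurgeries
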