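import Pool.Agent.Zk52.LMO.SpliceCoef
import Pool.Agent.Zk52.LMO.SpliceArith

/-!
# The LMO invariant separates the splices of the two-bridge knots of genus one

Let `K(a, b)` be the double twist knot with the parameters `a`, `b`; the nontrivial ones, `a b ≠ 0`,
are the two-bridge knots of genus one (among them the trefoil, the figure eight knot and all twist
knots). The splice `S(a, b | c, d)` of `K(a, b)` and `K(c, d)` is the integral homology sphere
obtained from the two knot exteriors by gluing meridian to longitude and longitude to meridian.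
Equivalently, these are the manifolds obtained by surgery with coefficients `-1 / a`, `-1 / b`,
`-1 / c`, `-1 / d` on the Milnor link with four components. If `a b c d ≠ 0` this is a Haken manifold
with the two knot exteriors as its JSJ pieces (hyperbolic, except for the trefoils); if `a b c d = 0`
it is the 3-sphere. All of them have the Casson invariant `0`. The Ohtsuki series, which is determined
by the LMO invariant (Ohtsuki), is the series `splice a b c d` of `Pool.Agent.Zk52.LMO.SpliceDefs` in
`h = q - 1` (Habiro's cyclotomic expansion, Masbaum's formula for the twists, the Hopf pairing).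

We show that the LMO invariant separates all these manifolds, and its part of degree at most seven is
sufficient: if the coefficients of `h ^ k`, `k ≤ 7`, agree for `S(a, b | c, d)` and
`S(a', b' | c', d')`, then both are the 3-sphere, or the pairs `{a, b}`, `{c, d}` and `{a', b'}`,
`{c', d'}` agree up to their order, so that the manifolds are homeomorphic. The part of degree at most
five does not separate them, for every integer `t ≠ 0` it agrees for `S(-6 t, 2 t | -2 t, 6 t)` and
`S(-4 t, 4 t | -3 t, 3 t)`. The coefficient of `h ^ 2` is `24 a b c d`, it detects the 3-sphere.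

Proof: let `s = a + b`, `p = a b`, `t = c + d`, `r = c d`. The coefficients up to degree five are
equivalent to `e = p r`, `σ = s + t`, `X = s t + 16 u` and `Z = 3 (p s + r t) - 8 u σ`, where
`u = p + r`. If also `u` agrees, then so do the parameters. If two different `u`, `u'` occur, then the
coefficients of degree six and seven give

  `4560 (u + u') = 272 σ ^ 2 + 279 X + 5040 e + 315`,
  `4050 Z = 2376 σ ^ 3 + 1442 σ X + 126400 σ e + 7995 σ - 60840 σ (u + u')`,

and there are integers `P`, `Q`, `D`, `E` with `64 p = (P + E) (Q + D)`, `64 r = (P - E) (Q - D)`,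
`64 p' = (P + E) (Q - D)`, `64 r' = (P - E) (Q + D)`, `13 σ = 3 (P + Q)`, `2 s = σ + D + E`,
`2 t = σ - D - E`, `2 s' = σ - D + E`, `2 t' = σ + D - E`. Since the discriminants
`s ^ 2 - 4 p = (a - b) ^ 2` etc. are squares, this is impossible modulo `9`.
-/

set_option autoImplicit false

namespace Pool.Agent.Results.MP_27a3bb_gt.GenusOneSplices

open PowerSeries Pool.Agent.Zk52.LMO

/-- two integers are determined by their sum and product -/
theorem pair_eq {x y x' y' : ℤ} (hs : x + y = x' + y') (hp : x * y = x' * y') :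
    (x = x' ∧ y = y') ∨ (x = y' ∧ y = x') := by
  have h : (x - x') * (x - y') = 0 := by
    have : y = x' + y' - x := by linarith
    rw [this] at hp
    linarith
  rcases mul_eq_zero.1 h with h | h
  · exact Or.inl ⟨by linarith, by linarith⟩
  · exact Or.inr ⟨by linarith, by linarith⟩

theorem pair_multiset {x y x' y' : ℤ} (hs : x + y = x' + y') (hp : x * y = x' * y') :
    ({x, y} : Multiset ℤ) = {x', y'} := by
  rcases pair_eq hs hp with ⟨rfl, rfl⟩ | ⟨rfl, rfl⟩
  · rfl
  · exact Multiset.cons_swap _ _ _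

/-- the case of equal `u` -/
theorem match_pairs {a b c d a' b' c' d' : ℤ}
    (hσ : (a + b) + (c + d) = (a' + b') + (c' + d'))
    (hw : (a + b) * (c + d) = (a' + b') * (c' + d'))
    (hu : a * b + c * d = a' * b' + c' * d')
    (he : (a * b) * (c * d) = (a' * b') * (c' * d'))
    (hm : (a * b) * (a + b) + (c * d) * (c + d) =
      (a' * b') * (a' + b') + (c' * d') * (c' + d')) :
    ({{a, b}, {c, d}} : Multiset (Multiset ℤ)) = {{a', b'}, {c', d'}} := by
  have key : ((a + b = a' + b' ∧ a * b = a' * b') ∧ (c + d = c' + d' ∧ c * d = c' * d')) ∨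
      ((a + b = c' + d' ∧ a * b = c' * d') ∧ (c + d = a' + b' ∧ c * d = a' * b')) := by
    generalize a + b = s at *
    generalize a * b = p at *
    generalize c + d = t at *
    generalize c * d = r at *
    generalize a' + b' = s' at *
    generalize a' * b' = p' at *
    generalize c' + d' = t' at *
    generalize c' * d' = r' at *
    rcases pair_eq hσ hw with ⟨rfl, rfl⟩ | ⟨rfl, rfl⟩
    · rcases pair_eq hu he with ⟨rfl, rfl⟩ | ⟨rfl, rfl⟩
      · exact Or.inl ⟨⟨rfl, rfl⟩, ⟨rfl, rfl⟩⟩
      · have h : (p - r) * (s - t) = 0 := by linarith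
        rcases mul_eq_zero.1 h with h | h
        · have : p = r := by linarith
          subst this
          exact Or.inl ⟨⟨rfl, rfl⟩, ⟨rfl, rfl⟩⟩
        · have : s = t := by linarith
          subst this
          exact Or.inr ⟨⟨rfl, rfl⟩, ⟨rfl, rfl⟩⟩
    · rcases pair_eq hu he with ⟨rfl, rfl⟩ | ⟨rfl, rfl⟩
      · have h : (p - r) * (s - t) = 0 := by linarith
        rcases mul_eq_zero.1 h with h | h
        · have : p = r := by linarith
          subst this
          exact Or.inr ⟨⟨rfl, rfl⟩, ⟨rfl, rfl⟩⟩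
        · have : s = t := by linarith
          subst this
          exact Or.inl ⟨⟨rfl, rfl⟩, ⟨rfl, rfl⟩⟩
      · exact Or.inr ⟨⟨rfl, rfl⟩, ⟨rfl, rfl⟩⟩
  rcases key with ⟨⟨h1, h2⟩, ⟨h3, h4⟩⟩ | ⟨⟨h1, h2⟩, ⟨h3, h4⟩⟩
  · rw [pair_multiset h1 h2, pair_multiset h3 h4]
  · rw [pair_multiset h1 h2, pair_multiset h3 h4]
    exact Multiset.cons_swap _ _ _

theorem result :
    -- the `(i, k)`-th term is divisible by `h ^ (2 max(i, k))`, so the series is the sum of the terms
    (∀ (a b c d : ℤ) (i k : ℕ), (X : PowerSeries ℤ) ^ (2 * max i k) ∣ spliceTerm a b c d i k) ∧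
    -- the coefficients up to degree seven separate the manifolds
    (∀ a b c d a' b' c' d' : ℤ,
      (∀ k : ℕ, k ≤ 7 → coeff k (splice a b c d) = coeff k (splice a' b' c' d')) →
      (a * b * c * d = 0 ∧ a' * b' * c' * d' = 0) ∨
        ({{a, b}, {c, d}} : Multiset (Multiset ℤ)) = {{a', b'}, {c', d'}}) ∧
    -- the coefficient of degree two detects the 3-sphere
    (∀ a b c d : ℤ, coeff 2 (splice a b c d) = 0 → a = 0 ∨ b = 0 ∨ c = 0 ∨ d = 0) ∧
    -- the coefficients up to degree five do not separate the manifolds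
    (∀ t : ℤ, t ≠ 0 →
      (∀ k : ℕ, k ≤ 5 → coeff k (splice (-6 * t) (2 * t) (-2 * t) (6 * t)) =
        coeff k (splice (-4 * t) (4 * t) (-3 * t) (3 * t))) ∧
      splice (-6 * t) (2 * t) (-2 * t) (6 * t) ≠ splice (-4 * t) (4 * t) (-3 * t) (3 * t)) := by
  refine ⟨X_pow_dvd_spliceTerm, ?_, ?_, ?_⟩
  · intro a b c d a' b' c' d' h
    obtain ⟨-, -, x2, x3, x4, x5, x6, x7⟩ := coeffs a b c d
    obtain ⟨-, -, y2, y3, y4, y5, y6, y7⟩ := coeffs a' b' c' d'
    rw [h 2 (by norm_num), y2] at x2
    rw [h 3 (by norm_num), y3] at x3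
    rw [h 4 (by norm_num), y4] at x4
    rw [h 5 (by norm_num), y5] at x5
    rw [h 6 (by norm_num), y6] at x6
    rw [h 7 (by norm_num), y7] at x7
    have he : ((a : ℚ) * b) * (c * d) = (a' * b') * (c' * d') := by
      unfold D2 at x2
      linarith
    have heZ : (a * b) * (c * d) = (a' * b') * (c' * d') := by exact_mod_cast he
    by_cases h0 : (a * b) * (c * d) = 0
    · refine Or.inl ⟨by rw [← h0]; ring, ?_⟩
      rw [heZ] at h0
      rw [← h0]
      ring
    right
    have h0' : ((a : ℚ) * b) * (c * d) ≠ 0 := by exact_mod_cast h0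
    rw [← he] at x3 x4 x5 x6 x7
    have x3 := mul_left_cancel₀ h0' x3
    have x4 := mul_left_cancel₀ h0' x4
    have x5 := mul_left_cancel₀ h0' x5
    have x6 := mul_left_cancel₀ h0' x6
    have x7 := mul_left_cancel₀ h0' x7
    have hσ : ((a : ℚ) + b) + (c + d) = (a' + b') + (c' + d') := by
      unfold D3 at x3
      linarith
    rw [← hσ] at x4 x5 x6 x7
    have hX : ((a : ℚ) + b) * (c + d) + 16 * (a * b + c * d) =
        (a' + b') * (c' + d') + 16 * (a' * b' + c' * d') := by
      unfold D4 at x4
      linarith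
    rw [← hX] at x5 x6 x7
    have hZ : (3 * (((a : ℚ) * b) * (a + b) + (c * d) * (c + d)) -
          8 * (a * b + c * d) * ((a + b) + (c + d))) =
        (3 * ((a' * b') * (a' + b') + (c' * d') * (c' + d')) -
          8 * (a' * b' + c' * d') * ((a + b) + (c + d))) := by
      unfold D5 at x5
      linarith
    rw [← hZ] at x6 x7
    -- over the integers
    have hσZ : (a + b) + (c + d) = (a' + b') + (c' + d') := by exact_mod_cast hσ
    have hXZ : (a + b) * (c + d) + 16 * (a * b + c * d) =
        (a' + b') * (c' + d') + 16 * (a' * b' + c' * d') := by exact_mod_cast hX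
    have hZZ : 3 * ((a * b) * (a + b) + (c * d) * (c + d)) -
          8 * (a * b + c * d) * ((a + b) + (c + d)) =
        3 * ((a' * b') * (a' + b') + (c' * d') * (c' + d')) -
          8 * (a' * b' + c' * d') * ((a + b) + (c + d)) := by exact_mod_cast hZ
    by_cases hu : a * b + c * d = a' * b' + c' * d'
    · refine match_pairs hσZ ?_ hu heZ ?_
      · linarith
      · rw [← hu] at hZZ
        linarith
    exfalso
    have huQ : ((a : ℚ) * b + c * d) - (a' * b' + c' * d') ≠ 0 := by
      intro hcon
      apply hu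
      have : ((a : ℚ) * b + c * d) = (a' * b' + c' * d') := by linarith
      exact_mod_cast this
    obtain ⟨σ, eσ⟩ : ∃ σ : ℚ, σ = ((a : ℚ) + b) + (c + d) := ⟨_, rfl⟩
    obtain ⟨Y, eY⟩ : ∃ Y : ℚ, Y = ((a : ℚ) + b) * (c + d) + 16 * (a * b + c * d) := ⟨_, rfl⟩
    obtain ⟨Z, eZ⟩ : ∃ Z : ℚ, Z = (3 * (((a : ℚ) * b) * (a + b) + (c * d) * (c + d)) -
          8 * (a * b + c * d) * ((a + b) + (c + d))) := ⟨_, rfl⟩
    obtain ⟨e, ee⟩ : ∃ e : ℚ, e = ((a : ℚ) * b) * (c * d) := ⟨_, rfl⟩
    obtain ⟨u, eu⟩ : ∃ u : ℚ, u = ((a : ℚ) * b + c * d) := ⟨_, rfl⟩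
    obtain ⟨v, ev⟩ : ∃ v : ℚ, v = ((a' : ℚ) * b' + c' * d') := ⟨_, rfl⟩
    rw [← eZ, ← eσ, ← eY, ← ee, ← eu, ← ev] at x6 x7
    rw [← eu, ← ev] at huQ
    have q6 : 272 * σ ^ 2 + 279 * Y + 5040 * e + 315 = 4560 * (u + v) := by
      have : (u - v) * (272 * σ ^ 2 + 279 * Y + 5040 * e + 315 - 4560 * (u + v)) = 0 := by
        unfold D6 at x6
        linear_combination (-9 / 8) * x6
      rcases mul_eq_zero.1 this with h | h
      · exact absurd h huQ
      · linarith
    have q7 : 4050 * Z = 2376 * σ ^ 3 + 1442 * σ * Y + 126400 * σ * e + 7995 * σ -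
        60840 * σ * (u + v) := by
      have : (u - v) * (2376 * σ ^ 3 + 1442 * σ * Y + 126400 * σ * e + 7995 * σ -
          60840 * σ * (u + v) - 4050 * Z) = 0 := by
        unfold D6 at x6
        unfold D7 at x7
        linear_combination (-27 / 8) * x7 - (81 / 8) * x6
      rcases mul_eq_zero.1 this with h | h
      · exact absurd h huQ
      · linarith
    rw [eσ, eY, ee, eu, ev] at q6
    rw [eσ, eY, eZ, ee, eu, ev] at q7
    have p6 : 272 * ((a + b) + (c + d)) ^ 2 +
        279 * ((a + b) * (c + d) + 16 * (a * b + c * d)) + 5040 * ((a * b) * (c * d)) + 315 =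
        4560 * (a * b + c * d + (a' * b' + c' * d')) := by exact_mod_cast q6
    have p7 : 4050 * (3 * ((a * b) * (a + b) + (c * d) * (c + d)) -
          8 * (a * b + c * d) * ((a + b) + (c + d))) =
        2376 * ((a + b) + (c + d)) ^ 3 + 1442 * ((a + b) + (c + d)) *
          ((a + b) * (c + d) + 16 * (a * b + c * d)) +
        126400 * ((a + b) + (c + d)) * ((a * b) * (c * d)) + 7995 * ((a + b) + (c + d)) -
        60840 * ((a + b) + (c + d)) * (a * b + c * d + (a' * b' + c' * d')) := by
      exact_mod_cast q7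
    refine no_coll (p := a * b) (r := c * d) (s := a + b) (t := c + d) (p' := a' * b')
      (r' := c' * d') (s' := a' + b') (t' := c' + d') (k₁ := a - b) (k₂ := c - d)
      (k₃ := a' - b') (k₄ := c' - d') (by ring) (by ring) (by ring) (by ring) hσZ heZ hXZ ?_ hu
      p6 p7
    rw [← hσZ]
    exact hZZ
  · intro a b c d h
    obtain ⟨-, -, x2, -⟩ := coeffs a b c d
    rw [h] at x2
    unfold D2 at x2
    have : ((a : ℚ) * b) * (c * d) = 0 := by push_cast at x2; linarith
    have : (a * b) * (c * d) = 0 := by exact_mod_cast this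
    rcases mul_eq_zero.1 this with h | h
    · rcases mul_eq_zero.1 h with h | h
      · exact Or.inl h
      · exact Or.inr (Or.inl h)
    · rcases mul_eq_zero.1 h with h | h
      · exact Or.inr (Or.inr (Or.inl h))
      · exact Or.inr (Or.inr (Or.inr h))
  · intro t ht
    obtain ⟨x0, x1, x2, x3, x4, x5, x6, -⟩ := coeffs (-6 * t) (2 * t) (-2 * t) (6 * t)
    obtain ⟨y0, y1, y2, y3, y4, y5, y6, -⟩ := coeffs (-4 * t) (4 * t) (-3 * t) (3 * t)
    have cast : ∀ {x y : ℤ}, (x : ℚ) = y → x = y := fun h => by exact_mod_cast h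
    constructor
    · intro k hk
      apply cast
      interval_cases k
      · rw [x0, y0]
      · rw [x1, y1]
      · rw [x2, y2]; unfold D2; push_cast; ring
      · rw [x3, y3]; unfold D3; push_cast; ring
      · rw [x4, y4]; unfold D4; push_cast; ring
      · rw [x5, y5]; unfold D5; push_cast; ring
    · intro hcon
      have h6 : ((coeff 6 (splice (-6 * t) (2 * t) (-2 * t) (6 * t)) : ℤ) : ℚ) =
          ((coeff 6 (splice (-4 * t) (4 * t) (-3 * t) (3 * t)) : ℤ) : ℚ) := by rw [hcon]
      rw [x6, y6] at h6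
      unfold D6 at h6
      push_cast at h6
      have ht' : (t : ℚ) ≠ 0 := by exact_mod_cast ht
      have hpos : (0 : ℚ) < t ^ 6 * (645120 * t ^ 4 + 298240 / 3 * t ^ 2 + 280) := by
        positivity
      have : (t : ℚ) ^ 6 * (645120 * t ^ 4 + 298240 / 3 * t ^ 2 + 280) = 0 := by
        linear_combination (1 / 144) * h6
      linarith

end Pool.Agent.Results.MP_27a3bb_gt.GenusOneSplices
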