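import Mathlib
import Pool.Agent.Zk79.LM.Fin
import Pool.Agent.Zk79.LN.Fin7
import Pool.Agent.Zk79.LN.Kap

/-!
# The LMO invariant of the integral homology spheres which are links of surface singularities

By a theorem of Ohtsuki the LMO invariant of an integral homology sphere `M` determines its Ohtsuki
series `τ_M(h)` (the perturbative `SO(3)` invariant, `q = exp h`). An integral homology sphere `M`, not
the 3-sphere, is the link of a normal complex surface singularity if and only if it is given by a
splice diagram as in `Diagram.IsSplice` (Eisenbud, Neumann): a tree all of whose inner vertices (nodes)
have valence at least 3, with a positive integer (weight) at each node for each edge there, such that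
the weights at a node are pairwise coprime, the weights of the edges to leaves are at least 2, and for
each edge between two nodes the product of its two weights is greater than the product of the other
weights at its two ends. The nodes are the pieces of the JSJ decomposition of `M` (Seifert fibred with
orders the weights), so the diagrams with one node, i.e. `n = 0`, are the Seifert fibred ones. Their
Ohtsuki series, for the orientation as a link, is (Gauss sum formula for plumbed homology spheres, or
the Aarhus integral of the weight system of `su(2) = ℝ ^ 3`)

  `τ_M(h) = q ^ (-φ / 4) * h / (q ^ (1 / 2) - q ^ (-1 / 2)) * ⟨∏_v G_v(h |x_v| ^ 2)⟩`,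

where `φ` is a rational number depending on `M`, the product is over the nodes, `⟨ ⟩` is the mean value
for Gaussian vectors `x_v` in `ℝ ^ 3` with `⟨x_v x_w ^ T⟩ = ℓ(v, w) / 2` times the unit matrix, `ℓ(v, w)`
is the linking number of fibres of the pieces `v` and `w` (the product of all weights adjacent to, but
not on, the path from `v` to `w`; for `v = w` the product `P v` of all weights at `v`), and
`G_v(y ^ 2) = ∏_a (sinh (y / a) / (y / a)) / (sinh y / y) ^ (d - 2)`, with `d` the valence of `v` and
the product over the weights `a` at `v` of the edges to leaves. (If one integrates over the directions
of the `x_v`, this becomes the integral of `∏_v (∏_a sinh (x_v / a)) / sinh (x_v) ^ (d - 2)` over real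
`x_v`, which for two nodes of valence 3 is the formula of the file `SplicedBrieskornSpheres`.)

Steps of the proof. (1) The matrix of the `ℓ(v, w)` is positive definite; so the Gaussian integral of
the functions `G_v` defines a function `E(h)` for complex `h` off the negative axis. The formal series
is its asymptotic expansion for `h → 0`, in a sector of opening greater than `π` with factorial
remainder estimates; so by Watson's lemma equal series have equal functions, up to `exp (ψ h)`. (2) For
`h → ∞` `E(h)` lies between two constant multiples of `h ^ (-3 (n + 1) / 2)` (except for the Poincaré
sphere, since then `∑_a 1 / a < d - 2` at all nodes); so `n` is determined and `ψ = 0`. (3) The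
coefficients of `G_v(-z)` are not negative (by a Riccati equation for `(sin y / y)' / (sin y / y)`), so
no cancellation occurs in the coefficients of the Gaussian integral: divided by the moments of the
standard Gaussian measure of `ℝ ^ 3`, they form a series with the radius of convergence
`2 π ^ 2 / max_v P(v)`. (4) The Poincaré sphere is the only one with `max_v P(v) ≤ 30`. (5) For one node
the zeros of the entire function `∏_a (sinh (y / a) / (y / a))` give the weights.

(6) Let `v`, `w` be two nodes with `P(v) ≥ P(w)`. The coefficients of the series of (3) have an
asymptotic expansion to all orders (a power of `n`, given by the valence of `v`, times inverse odd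
factorials). Its coefficients are, up to known factors, those of the Taylor series at `T = 0` of
`∑_i R_i(T) Ψ^(i)(μ + ν T) + R_i(-T) Ψ^(i)(μ - ν T)`, with polynomials `R_i`,
`Ψ(z) = ∏_a sin (π z / a) / sin (π z) ^ (d - 2)` (product over the leaves at `w`, `d` the valence of `w`)
and `μ`, `ν` given by the linking numbers; if `P(v) = P(w)` there is a second contribution of the same
kind. `Ψ` is periodic; simultaneous approximations of the periods isolate the part of highest order in
the polynomials; as this part has poles, the periods of two such functions, if they are equal, are
commensurable, so all coefficients of the polynomial variable are equal. Those of order `0` give the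
function `Ψ(μ + ν T) + Ψ(μ - ν T)` up to a constant (for `P(v) = P(w)` and equal valences, with the sum of
the two functions `Ψ`). Its poles are real; their positions and coefficients give `μ`, `ν`, `d` and the
values of `∏_a sin (π m / a)` for all integers `m` (or the sum of two such products), and these give the
weights of the leaves at `w` (by a Fourier analysis of the sum of two such products, if their periods are
different or both have two factors); then a triangular system gives the power series of `G_v`, and so
all weights. (7) If `P(v) = P(w)` and both nodes have the same number, at least 3, of leaves and the same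
product `g` of the weights of the leaves, then `μ = g / k` with `k > g` prime to `g`; so a difference `F`
of two such sums with `F(z + 2 μ) sin (π z) ^ κ = F(z) sin (π (z + 2 μ)) ^ κ` is, as a Laurent polynomial
in `exp (π i z / g)`, divisible by `sin (π z) ^ κ` and of smaller degree, so it is 0. Hence the function
`s_v ∏_w sin (π z / a) + s_w ∏_v sin (π z / a)`, with `s_v = ∏_v sin (π / a)`, is determined up to a known
factor; its values at `z = 1` and its leading coefficient at `z = 0` give `s_v s_w` and `s_v + s_w`. At
last `∏_a sin (π / a)` and `∏_a a` determine the pairwise coprime weights `a`: by Galois conjugation all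
`∏_a sin (π t / a)`, `t` prime to `2 g`, are given, and by the Chinese remainder theorem `|sin (π t / a)|`
would be a product of functions of the residues of `t` modulo two proper coprime factors of `a`, which is
impossible if both are greater than 2. (8) The coefficient of `z ^ 2` in `log G_v` is
`(d - 2 - ∑_a a ^ (-4)) / 180 > 0` and a variance is not negative, so the coefficient of `h ^ 2` in the
logarithm of the Gaussian mean is at least `∑_v P(v) ^ 2 / 960`; hence only finitely many diagrams have
given coefficients of degree at most 2, and finitely many coefficients of `τ_M` determine `τ_M` among the
series of all these links. (Expansions, Fourier analysis: helper52; moments and Taylor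
series: helper11; poles: helper20; periods: helper62; Galois conjugation and sets: helper9.)
-/

set_option autoImplicit false

namespace Pool.Agent.Results.MP_27a3bb_gt.SingularityLinks

open Pool.Agent.Zk79.LM PowerSeries

/-- Let `M`, `M'` be integral homology spheres which are links of surface singularities (not the
3-sphere, oriented as links), with `n + 1` nodes resp. `n' + 1` nodes, and `φ`, `φ'` any complex
numbers.
(1) If `τ_M = τ_M'`, then `φ = φ'`, `n = n'`, the greatest products `max_v P(v)` of the weights at a
node are equal, and `M = M'` if one of them is Seifert fibred.
(2) If `τ_M = τ_M'` and `M` has two nodes, then `M = M'` (up to the numbering of the two nodes).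
(3) `τ_M` is not 1, the series of the 3-sphere. Only finitely many `M'` have, for some `φ'`, the same
coefficients of degree at most 2 as `τ_M`, and there is a number `d`, depending on `τ_M`, such that
`τ_M' = τ_M` if the coefficients of degree at most `d` are the same. -/
theorem result :
    (∀ (M M' : Diagram) (φ φ' : ℂ), M.IsSplice → M'.IsSplice → M.ohtsuki φ = M'.ohtsuki φ' →
      φ = φ' ∧ M.n = M'.n ∧ M.Pmax = M'.Pmax ∧ (M.n = 0 → M = M')) ∧
    (∀ (M M' : Diagram) (φ φ' : ℂ), M.IsSplice → M'.IsSplice → M.ohtsuki φ = M'.ohtsuki φ' →
      M.n = 1 → M' = M ∨ M' = M.swap) ∧
    (∀ (M : Diagram) (φ : ℂ), M.IsSplice → M.ohtsuki φ ≠ 1 ∧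
      {M' : Diagram | M'.IsSplice ∧
        ∃ φ', ∀ k ≤ 2, coeff k (M'.ohtsuki φ') = coeff k (M.ohtsuki φ)}.Finite ∧
      ∃ d : ℕ, ∀ (M' : Diagram) (φ' : ℂ), M'.IsSplice →
        (∀ k ≤ d, coeff k (M'.ohtsuki φ') = coeff k (M.ohtsuki φ)) →
          M'.ohtsuki φ' = M.ohtsuki φ) :=
  ⟨fun _ _ _ _ h h' ho => main h h' ho,
    fun _ _ _ _ h h' ho hn => Pool.Agent.Zk79.LN.two_all h h' ho hn,
    fun M φ h => ⟨Pool.Agent.Zk79.LN.ne_one h φ, Pool.Agent.Zk79.LN.finite_two M φ,
      Pool.Agent.Zk79.LN.finite_type M φ⟩⟩

end Pool.Agent.Results.MP_27a3bb_gt.SingularityLinks
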