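import Pool.Agent.Zk52.LMO.DoubleCoef
import Pool.Agent.Zk52.LMO.DoubleArith
import Pool.Agent.Zk52.LMO.DoubleDvd

/-!
# The LMO invariant separates the surgeries on the twisted doubles of an arbitrary knot

Let `J` be a knot and `t`, `b`, `c` integers. `D(J; t, b)` is the genus one double of `J`: the boundary
of the plumbing of an annulus tied in the knot `J` with `t` full twists and an unknotted annulus with `b`
full twists. For `b = 1`, `b = -1` these are the `t`-twisted Whitehead doubles of `J`. Let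
`M(J, t; b, c)` be the integral homology sphere obtained by surgery with coefficient `-1 / c` on
`D(J; t, b)`. It is the union of the exteriors of `J` and of the double twist knot `K(b, c)` (so
`M(J, t; c, b) = M(J, t; b, c)`, and for `b c = 0` it is the 3-sphere; for `t = 0` it is the splice of the
two knots). If `J` is nontrivial and `b c ≠ 0`, it is a toroidal Haken manifold, whose geometric pieces
are those of `J` and one more. The Ohtsuki series, which is determined by the LMO invariant (Ohtsuki), is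
the series `double a t b c` of `Pool.Agent.Zk52.LMO.DoubleDefs` in `h = q - 1`, where `a` is the
sequence of the cyclotomic coefficients of `J` (Habiro), `a_0 = 1`. Here `a_1 = v + v' h + ...`, where
`v` is minus the coefficient of `z ^ 2` of the Conway polynomial of `J` (the Vassiliev invariant of
degree two), and if `v = 0`, then `v'` is the Vassiliev invariant of degree three of `J` up to a factor.

We show

* for every knot `J` and every `t ≠ 0` the LMO invariant separates all surgeries on all doubles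
  `D(J; t, b)`, `b ∈ ℤ`, of `J` with the twisting `t`; the part of degree at most two is sufficient.

* for every knot `J` with `v ≠ 0` or `v' ≠ 0` the LMO invariant separates all surgeries on all doubles
  `D(J; t, b)`, `t, b ∈ ℤ`, except possibly for finitely many pairs `t ≠ t'` of the twistings; the part of
  degree at most four is sufficient. Let `K = 4 v` if `v ≠ 0` and `K = 3 v'` if `v = 0`. The exceptional
  pairs satisfy `t t' ∣ K (t' - t)`, therefore `t, t' ≠ 0`, `min(|t|, |t'|) ≤ 2 |K|`,
  `max(|t|, |t'|) ≤ 2 K ^ 2`. So all surgeries on all doubles with `t = 0` or `|t| > 2 |K|` are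
  separated.

* for these knots `J` the part of degree at most three detects the 3-sphere among all these manifolds.

Proof: let `s = b + c` and `E = t b c`. The coefficient of `h` is `-6 E`. If `E ≠ 0`, the coefficient
of `h ^ 2` determines `s + t + 4 v / t`. If `v = 0` then the coefficient of `h ^ 3` determines
`t s + b c + 3 v' / t` in addition. So `K / t - K / t'` is an integer, if two of the manifolds have the
same coefficients. If `t = 0`, the product `b c` and the sum `s` are determined by the coefficients of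
degree two and three if `v ≠ 0`, and of degree three and four if `v = 0`.
-/

set_option autoImplicit false

namespace Pool.Agent.Results.MP_27a3bb_gt.TwistedDoubles

open PowerSeries Pool.Agent.Zk52.LMO

theorem fixed {a : ℕ → PowerSeries ℤ} (h0 : a 0 = 1) {t b c b' c' : ℤ} (ht : t ≠ 0)
    (h : ∀ k : ℕ, k ≤ 2 → coeff k (double a t b c) = coeff k (double a t b' c')) :
    (b * c = 0 ∧ b' * c' = 0) ∨ ({b, c} : Multiset ℤ) = {b', c'} := by
  obtain ⟨v0, v1, v2, v3, v4, hv⟩ := R5_any (a 1)
  obtain ⟨w0, w1, w2, w3, w4, hw⟩ := R5_any (a 2)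
  obtain ⟨x1, x2, -, -⟩ := double_coeffs a t b c h0 hv hw
  obtain ⟨y1, y2, -, -⟩ := double_coeffs a t b' c' h0 hv hw
  rw [h 1 (by norm_num), y1] at x1
  rw [h 2 (by norm_num), y2] at x2
  have htQ : (t : ℚ) ≠ 0 := by exact_mod_cast ht
  have hβ : (b' : ℚ) * c' = b * c := by
    have : (t : ℚ) * (b' * c') = t * (b * c) := by linarith
    exact mul_left_cancel₀ htQ this
  have hβZ : b' * c' = b * c := by exact_mod_cast hβ
  by_cases hz : b * c = 0
  · exact Or.inl ⟨hz, by rw [hβZ, hz]⟩
  right
  have hzQ : (b : ℚ) * c ≠ 0 := by exact_mod_cast hz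
  rw [hβ] at x2
  have hs : (b' : ℚ) + c' = b + c := by
    have : ((b : ℚ) * c * t) * (b' + c') = ((b : ℚ) * c * t) * (b + c) := by linarith
    exact mul_left_cancel₀ (mul_ne_zero hzQ htQ) this
  have hsZ : b' + c' = b + c := by exact_mod_cast hs
  exact pair_ms hsZ.symm hβZ.symm

/-- the 3-sphere is detected -/
theorem sphere {a : ℕ → PowerSeries ℤ} (h0 : a 0 = 1) (hv : coeff 0 (a 1) ≠ 0 ∨ coeff 1 (a 1) ≠ 0)
    {t b c : ℤ} (h : ∀ k : ℕ, 1 ≤ k → k ≤ 3 → coeff k (double a t b c) = 0) : b * c = 0 := by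
  obtain ⟨v0, v1, v2, v3, v4, hv'⟩ := R5_any (a 1)
  obtain ⟨w0, w1, w2, w3, w4, hw⟩ := R5_any (a 2)
  obtain ⟨x1, x2, x3, -⟩ := double_coeffs a t b c h0 hv' hw
  rw [h 1 (by norm_num) (by norm_num)] at x1
  rw [h 2 (by norm_num) (by norm_num)] at x2
  rw [h 3 (by norm_num) (by norm_num)] at x3
  push_cast at x1 x2 x3
  by_contra hz
  have hzQ : (b : ℚ) * c ≠ 0 := by exact_mod_cast hz
  have ht : (t : ℚ) = 0 := by
    have : ((b : ℚ) * c) * t = 0 := by linarith
    exact (mul_eq_zero.1 this).resolve_left hzQ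
  rw [ht] at x2 x3
  have hv0 : v0 = 0 := by
    have : ((b : ℚ) * c) * v0 = 0 := by linarith
    exact (mul_eq_zero.1 this).resolve_left hzQ
  rw [hv0] at x3
  have hv1 : v1 = 0 := by
    have : ((b : ℚ) * c) * v1 = 0 := by linarith
    exact (mul_eq_zero.1 this).resolve_left hzQ
  rcases hv with hv | hv
  · apply hv
    have := hv'.1
    rw [hv0] at this
    exact_mod_cast this
  · apply hv
    have := hv'.2.1
    rw [hv1] at this
    exact_mod_cast this

theorem all {a : ℕ → PowerSeries ℤ} (h0 : a 0 = 1) {v v' K : ℤ} (hv0 : coeff 0 (a 1) = v)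
    (hv1 : coeff 1 (a 1) = v')
    (hC : (v ≠ 0 ∧ K = 4 * v) ∨ (v = 0 ∧ v' ≠ 0 ∧ K = 3 * v'))
    {t b c t' b' c' : ℤ}
    (h : ∀ k : ℕ, k ≤ 4 → coeff k (double a t b c) = coeff k (double a t' b' c')) :
    (b * c = 0 ∧ b' * c' = 0) ∨ (t = t' ∧ ({b, c} : Multiset ℤ) = {b', c'}) ∨
      (t ≠ 0 ∧ t' ≠ 0 ∧ t ≠ t' ∧ t * t' ∣ K * (t' - t)) := by
  obtain ⟨v0, v1, v2, v3, v4, hv⟩ := R5_any (a 1)
  obtain ⟨w0, w1, w2, w3, w4, hw⟩ := R5_any (a 2)
  have e0 : (v : ℚ) = v0 := by rw [← hv0]; exact hv.1
  have e1 : (v' : ℚ) = v1 := by rw [← hv1]; exact hv.2.1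
  obtain ⟨x1, x2, x3, x4⟩ := double_coeffs a t b c h0 hv hw
  obtain ⟨y1, y2, y3, y4⟩ := double_coeffs a t' b' c' h0 hv hw
  rw [← e0] at x2 x3 x4 y2 y3 y4
  rw [← e1] at x3 x4 y3 y4
  rw [h 1 (by norm_num), y1] at x1
  rw [h 2 (by norm_num), y2] at x2
  rw [h 3 (by norm_num), y3] at x3
  have hE : (t' : ℚ) * (b' * c') = t * (b * c) := by linarith
  have hEZ : t' * (b' * c') = t * (b * c) := by exact_mod_cast hE
  -- the manifolds are trivial at the same time
  have triv : b * c = 0 ↔ b' * c' = 0 := by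
    constructor
    · intro hz
      have hzQ : (b : ℚ) * c = 0 := by exact_mod_cast hz
      rw [hz, mul_zero] at hEZ
      rcases mul_eq_zero.1 hEZ with h1 | h1
      · rw [h1, hzQ] at x2 x3
        push_cast at x2 x3
        rcases hC with ⟨hC, -⟩ | ⟨hC, hC', -⟩
        · have hCQ : (v : ℚ) ≠ 0 := by exact_mod_cast hC
          have : (v : ℚ) * (b' * c') = 0 := by linarith
          have := (mul_eq_zero.1 this).resolve_left hCQ
          exact_mod_cast this
        · have hCQ : (v' : ℚ) ≠ 0 := by exact_mod_cast hC'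
          have hCz : (v : ℚ) = 0 := by exact_mod_cast hC
          rw [hCz] at x3
          have : (v' : ℚ) * (b' * c') = 0 := by linarith
          have := (mul_eq_zero.1 this).resolve_left hCQ
          exact_mod_cast this
      · exact h1
    · intro hz
      have hzQ : (b' : ℚ) * c' = 0 := by exact_mod_cast hz
      rw [hz, mul_zero] at hEZ
      rcases mul_eq_zero.1 hEZ.symm with h1 | h1
      · rw [h1, hzQ] at x2 x3
        push_cast at x2 x3
        rcases hC with ⟨hC, -⟩ | ⟨hC, hC', -⟩
        · have hCQ : (v : ℚ) ≠ 0 := by exact_mod_cast hC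
          have : (v : ℚ) * (b * c) = 0 := by linarith
          have := (mul_eq_zero.1 this).resolve_left hCQ
          exact_mod_cast this
        · have hCQ : (v' : ℚ) ≠ 0 := by exact_mod_cast hC'
          have hCz : (v : ℚ) = 0 := by exact_mod_cast hC
          rw [hCz] at x3
          have : (v' : ℚ) * (b * c) = 0 := by linarith
          have := (mul_eq_zero.1 this).resolve_left hCQ
          exact_mod_cast this
      · exact h1
  by_cases hz : b * c = 0
  · exact Or.inl ⟨hz, triv.1 hz⟩
  have hz' : b' * c' ≠ 0 := fun hh => hz (triv.2 hh)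
  right
  have hzQ : (b : ℚ) * c ≠ 0 := by exact_mod_cast hz
  have hzQ' : (b' : ℚ) * c' ≠ 0 := by exact_mod_cast hz'
  by_cases ht0 : t = 0
  · -- both framings are zero
    have ht0' : t' = 0 := by
      rw [ht0, zero_mul] at hEZ
      exact (mul_eq_zero.1 hEZ).resolve_right hz'
    have x4 := x4 ht0
    rw [h 4 (by norm_num), y4 ht0'] at x4
    rw [ht0, ht0'] at x2 x3
    push_cast at x2 x3
    refine Or.inl ⟨by rw [ht0, ht0'], ?_⟩
    rcases hC with ⟨hC, -⟩ | ⟨hC, hC', -⟩
    · have hCQ : (v : ℚ) ≠ 0 := by exact_mod_cast hC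
      have hβ : (b' : ℚ) * c' = b * c := by
        have : (v : ℚ) * (b' * c') = v * (b * c) := by linarith
        exact mul_left_cancel₀ hCQ this
      rw [hβ] at x3
      have hs : (b' : ℚ) + c' = b + c := by
        have : ((b : ℚ) * c * v) * (b' + c') = ((b : ℚ) * c * v) * (b + c) := by linarith
        exact mul_left_cancel₀ (mul_ne_zero hzQ hCQ) this
      exact pair_ms (by exact_mod_cast hs.symm) (by exact_mod_cast hβ.symm)
    · have hCQ : (v' : ℚ) ≠ 0 := by exact_mod_cast hC'
      have hCz : (v : ℚ) = 0 := by exact_mod_cast hC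
      rw [hCz] at x3 x4
      have hβ : (b' : ℚ) * c' = b * c := by
        have : (v' : ℚ) * (b' * c') = v' * (b * c) := by linarith
        exact mul_left_cancel₀ hCQ this
      rw [hβ] at x4
      have hs : (b' : ℚ) + c' = b + c := by
        have : ((b : ℚ) * c * v') * (b' + c') = ((b : ℚ) * c * v') * (b + c) := by linarith
        exact mul_left_cancel₀ (mul_ne_zero hzQ hCQ) this
      exact pair_ms (by exact_mod_cast hs.symm) (by exact_mod_cast hβ.symm)
  · have ht0' : t' ≠ 0 := by
      rintro rfl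
      rw [zero_mul] at hEZ
      rcases mul_eq_zero.1 hEZ.symm with h1 | h1
      · exact ht0 h1
      · exact hz h1
    have htQ : (t : ℚ) ≠ 0 := by exact_mod_cast ht0
    have htQ' : (t' : ℚ) ≠ 0 := by exact_mod_cast ht0'
    have finish : t = t' → (b' : ℚ) + c' = b + c →
        (t = t' ∧ ({b, c} : Multiset ℤ) = {b', c'}) ∨
          (t ≠ 0 ∧ t' ≠ 0 ∧ t ≠ t' ∧ t * t' ∣ K * (t' - t)) := by
      intro h1 h2
      refine Or.inl ⟨h1, pair_ms (by exact_mod_cast h2.symm) ?_⟩
      rw [h1] at hEZ
      exact (mul_left_cancel₀ ht0' hEZ).symm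
    -- the relation of degree two
    have r2 : (t * t' : ℚ) * ((b' + c') + t') + 4 * v * t = (t * t' : ℚ) * ((b + c) + t) + 4 * v * t' := by
      have hne : (t : ℚ) * (b * c) ≠ 0 := mul_ne_zero htQ hzQ
      refine mul_left_cancel₀ hne ?_
      linear_combination (-1 / 6 * t * t') * x2 + (10 * t * t' * (t' * (b' * c') + t * (b * c))
        - t * t' * (b' + c' + t') + t * t' / 2 - 4 * v * t) * hE
    rcases hC with ⟨hC, hCC⟩ | ⟨hC, hC', hCC⟩
    · by_cases htt : t = t'
      swap
      · refine Or.inr ⟨ht0, ht0', htt, ⟨(b' + c' + t') - (b + c + t), ?_⟩⟩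
        rw [hCC]
        have : ((4 * v * (t' - t) : ℤ) : ℚ) =
            ((t * t') * ((b' + c' + t') - (b + c + t)) : ℤ) := by
          push_cast
          linarith
        exact_mod_cast this
      refine finish htt ?_
      rw [← htt] at r2
      have : (t * t : ℚ) * (b' + c') = (t * t) * (b + c) := by linarith
      exact mul_left_cancel₀ (mul_ne_zero htQ htQ) this
    · have hCz : (v : ℚ) = 0 := by exact_mod_cast hC
      rw [hCz] at x3 r2
      have hσ : ((b' : ℚ) + c') + t' = (b + c) + t := by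
        refine mul_left_cancel₀ (mul_ne_zero htQ htQ') ?_
        linarith
      have r3 : (t * t' : ℚ) * (t' * (b' + c') + b' * c') + 3 * v' * t =
          (t * t' : ℚ) * (t * (b + c) + b * c) + 3 * v' * t' := by
        have hne : (t : ℚ) * (b * c) ≠ 0 := mul_ne_zero htQ hzQ
        refine mul_left_cancel₀ hne ?_
        linear_combination (-1 / 8 * t * t') * x3 + (1 / 8 * t * t' *
          (-840 * ((t' * (b' * c')) ^ 2 + (t' * (b' * c')) * (t * (b * c)) + (t * (b * c)) ^ 2)
            + 160 * (t' * (b' * c') + t * (b * c)) * (b' + c' + t') - 4 * (b' + c' + t') ^ 2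
            - 8 * t' * (b' + c') - 60 * (t' * (b' * c') + t * (b * c)) + 6 * (b' + c' + t')
            - 8 * (b' * c') - 2) - 3 * v' * t) * hE
          + (1 / 8 * t * t' * (160 * (t * (b * c)) ^ 2
            - 4 * (t * (b * c)) * ((b' + c' + t') + (b + c + t)) + 6 * (t * (b * c)))) * hσ
      by_cases htt : t = t'
      swap
      · refine Or.inr ⟨ht0, ht0', htt,
          ⟨(t' * (b' + c') + b' * c') - (t * (b + c) + b * c), ?_⟩⟩
        rw [hCC]
        have : ((3 * v' * (t' - t) : ℤ) : ℚ) =
            ((t * t') * ((t' * (b' + c') + b' * c') - (t * (b + c) + b * c)) : ℤ) := by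
          push_cast
          linarith
        exact_mod_cast this
      refine finish htt ?_
      rw [htt] at hσ
      linarith

theorem result :
    -- the `n`-th term is divisible by `h ^ n`, so the series is the sum of the terms
    (∀ (a : ℕ → PowerSeries ℤ) (t b c : ℤ) (n : ℕ),
      (X : PowerSeries ℤ) ^ n ∣ doubleTerm a t b c n) ∧
    -- for every knot `J` and every `t ≠ 0`, the part of degree at most two separates all surgeries on
    -- all doubles of `J` with the twisting `t`
    (∀ a : ℕ → PowerSeries ℤ, a 0 = 1 → ∀ t : ℤ, t ≠ 0 → ∀ b c b' c' : ℤ,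
      (∀ k : ℕ, k ≤ 2 → coeff k (double a t b c) = coeff k (double a t b' c')) →
      (b * c = 0 ∧ b' * c' = 0) ∨ ({b, c} : Multiset ℤ) = {b', c'}) ∧
    -- for every knot `J` with `v ≠ 0` or `v' ≠ 0`, the part of degree at most four separates all
    -- surgeries on all doubles of `J`, except for finitely many pairs of different twistings
    (∀ a : ℕ → PowerSeries ℤ, a 0 = 1 → ∀ v v' K : ℤ, coeff 0 (a 1) = v → coeff 1 (a 1) = v' →
      ((v ≠ 0 ∧ K = 4 * v) ∨ (v = 0 ∧ v' ≠ 0 ∧ K = 3 * v')) →
      ∀ t b c t' b' c' : ℤ,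
      (∀ k : ℕ, k ≤ 4 → coeff k (double a t b c) = coeff k (double a t' b' c')) →
      (b * c = 0 ∧ b' * c' = 0) ∨ (t = t' ∧ ({b, c} : Multiset ℤ) = {b', c'}) ∨
        (t ≠ 0 ∧ t' ≠ 0 ∧ t ≠ t' ∧ t * t' ∣ K * (t' - t) ∧
          min |t| |t'| ≤ 2 * |K| ∧ max |t| |t'| ≤ 2 * K ^ 2)) ∧
    -- for these knots the part of degree at most three detects the 3-sphere
    (∀ a : ℕ → PowerSeries ℤ, a 0 = 1 → (coeff 0 (a 1) ≠ 0 ∨ coeff 1 (a 1) ≠ 0) → ∀ t b c : ℤ,
      (∀ k : ℕ, 1 ≤ k → k ≤ 3 → coeff k (double a t b c) = 0) → b * c = 0) := by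
  refine ⟨X_pow_dvd_doubleTerm, fun _ h0 _ ht _ _ _ _ h => fixed h0 ht h, ?_,
    fun _ h0 hv _ _ _ h => sphere h0 hv h⟩
  intro a h0 v v' K hv0 hv1 hK t b c t' b' c' h
  rcases all h0 hv0 hv1 hK h with h | h | ⟨h1, h2, h3, h4⟩
  · exact Or.inl h
  · exact Or.inr (Or.inl h)
  · have hK0 : K ≠ 0 := by
      rcases hK with ⟨hv, rfl⟩ | ⟨-, hv, rfl⟩
      · intro hh
        apply hv
        linarith
      · intro hh
        apply hv
        linarith
    obtain ⟨h5, h6⟩ := small_of_frac hK0 h1 h2 h3 h4
    exact Or.inr (Or.inr ⟨h1, h2, h3, h4, h5, h6⟩)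

end Pool.Agent.Results.MP_27a3bb_gt.TwistedDoubles
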